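import Mathlib

set_option autoImplicit false

namespace Pool.Agent.MP_32357e_an

open Complex

/-- The small coefficient. -/
noncomputable def eps : ℂ := (1/100 : ℂ) / ((1/100 : ℂ) - I / 2)

noncomputable def uu (s : ℂ) : ℂ := 1 - eps * exp (-(I / 2) * s)

noncomputable def gg (s : ℂ) : ℂ :=
  (1/100 : ℂ) * exp (-(101/100 : ℂ) * s) - ((1/100 : ℂ) - I / 2) * exp (-((101/100 : ℂ) - I / 2) * s)

noncomputable def GG (s : ℂ) : ℂ :=
  exp (-(1/100 : ℂ) * s) - exp (-((1/100 : ℂ) - I / 2) * s)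

lemma cne : ((1/100 : ℂ) - I / 2) ≠ 0 := by
  intro h
  have := congrArg Complex.re h
  norm_num at this

lemma norm_eps : ‖eps‖ ≤ 1/50 := by
  unfold eps
  rw [norm_div]
  have h1 : (1/2 : ℝ) ≤ ‖((1/100 : ℂ) - I / 2)‖ := by
    have := Complex.abs_im_le_norm ((1/100 : ℂ) - I / 2)
    have h2 : ((1/100 : ℂ) - I / 2).im = -(1/2) := by norm_num
    rw [h2] at this
    norm_num at this ⊢
    exact this
  have h3 : ‖(1/100 : ℂ)‖ = 1/100 := by norm_num
  rw [h3, div_le_iff₀ (by linarith)]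
  linarith

lemma norm_exp_le {s : ℂ} (hs : |s.im| < Real.pi / 2) : ‖exp (-(I / 2) * s)‖ ≤ 3 := by
  rw [Complex.norm_exp]
  have h1 : (-(I / 2) * s).re = s.im / 2 := by
    simp
    ring
  rw [h1]
  have h2 : s.im / 2 ≤ 1 := by
    have := Real.pi_lt_four
    have := (abs_lt.mp hs).2
    linarith
  have h3 := Real.exp_le_exp.mpr h2
  have h4 := Real.exp_one_lt_d9
  linarith

lemma norm_pert_le {s : ℂ} (hs : |s.im| < Real.pi / 2) :
    ‖eps * exp (-(I / 2) * s)‖ ≤ 3 / 50 := by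
  rw [norm_mul]
  have h1 := norm_eps
  have h2 := norm_exp_le hs
  have h3 := norm_nonneg eps
  have h4 := norm_nonneg (exp (-(I / 2) * s))
  nlinarith

lemma uu_re {s : ℂ} (hs : |s.im| < Real.pi / 2) : 47 / 50 ≤ (uu s).re := by
  unfold uu
  have h1 := norm_pert_le hs
  have h2 := Complex.re_le_norm (eps * exp (-(I / 2) * s))
  rw [Complex.sub_re, Complex.one_re]
  linarith

lemma uu_slit {s : ℂ} (hs : |s.im| < Real.pi / 2) : uu s ∈ slitPlane := by
  left
  have := uu_re hs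
  linarith

lemma uu_ne {s : ℂ} (hs : |s.im| < Real.pi / 2) : uu s ≠ 0 := slitPlane_ne_zero (uu_slit hs)

lemma hasDerivAt_uu (s : ℂ) :
    HasDerivAt uu (-(eps * (exp (-(I / 2) * s) * (-(I / 2))))) s := by
  unfold uu
  have h1 : HasDerivAt (fun s : ℂ => -(I / 2) * s) (-(I / 2)) s := by
    simpa using (hasDerivAt_id s).const_mul (-(I / 2))
  exact ((h1.cexp).const_mul eps).const_sub 1

lemma hasDerivAt_L {s : ℂ} (hs : |s.im| < Real.pi / 2) :
    HasDerivAt (fun s => log (uu s)) (-(eps * (exp (-(I / 2) * s) * (-(I / 2)))) / uu s) s :=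
  (hasDerivAt_uu s).clog (uu_slit hs)

lemma norm_deriv_L {s : ℂ} (hs : |s.im| < Real.pi / 2) :
    ‖-(eps * (exp (-(I / 2) * s) * (-(I / 2)))) / uu s‖ ≤ 1 / 20 := by
  rw [norm_div, norm_neg, ← mul_assoc, norm_mul]
  have h1 := norm_pert_le hs
  have h2 : ‖-(I / 2)‖ = 1/2 := by simp
  have h3 := uu_re hs
  have h4 := Complex.re_le_norm (uu s)
  rw [h2, div_le_iff₀ (by linarith)]
  linarith

lemma convex_strip : Convex ℝ {s : ℂ | |s.im| < Real.pi / 2} := by
  have h : {s : ℂ | |s.im| < Real.pi / 2}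
      = {s : ℂ | -(Real.pi / 2) < s.im} ∩ {s : ℂ | s.im < Real.pi / 2} := by
    ext s
    simp [abs_lt]
  rw [h]
  exact (convex_halfSpace_im_gt _).inter (convex_halfSpace_im_lt _)

lemma lip_L {s t : ℂ} (hs : |s.im| < Real.pi / 2) (ht : |t.im| < Real.pi / 2) :
    ‖log (uu s) - log (uu t)‖ ≤ 1 / 20 * ‖s - t‖ := by
  exact convex_strip.norm_image_sub_le_of_norm_hasDerivWithin_le
    (f := fun s => log (uu s))
    (f' := fun s => -(eps * (exp (-(I / 2) * s) * (-(I / 2)))) / uu s)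
    (fun x hx => (hasDerivAt_L hx).hasDerivWithinAt) (fun x hx => norm_deriv_L hx) ht hs

lemma gg_eq {s : ℂ} (hs : |s.im| < Real.pi / 2) :
    gg s = -((1/100 : ℂ) - I / 2) * exp (-((101/100 : ℂ) - I / 2) * s + log (uu s)) := by
  rw [Complex.exp_add, Complex.exp_log (uu_ne hs)]
  unfold gg uu eps
  have h1 : exp (-(101/100 : ℂ) * s)
      = exp (-((101/100 : ℂ) - I / 2) * s) * exp (-(I / 2) * s) := by
    rw [← Complex.exp_add]
    congr 1
    ring
  rw [h1]
  have h2 : ((1/100 : ℂ) - I / 2) * ((1/100 : ℂ) / ((1/100 : ℂ) - I / 2)) = 1/100 :=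
    mul_div_cancel₀ _ cne
  linear_combination (-(exp (-((101/100 : ℂ) - I / 2) * s) * exp (-(I / 2) * s))) * h2

lemma gg_inj {s t : ℂ} (hs : |s.im| < Real.pi / 2) (ht : |t.im| < Real.pi / 2)
    (h : gg s = gg t) : s = t := by
  rw [gg_eq hs, gg_eq ht] at h
  have h1 := mul_left_cancel₀ (neg_ne_zero.mpr cne) h
  obtain ⟨k, hk⟩ := Complex.exp_eq_exp_iff_exists_int.mp h1
  have hL := lip_L hs ht
  set E := log (uu s) - log (uu t) with hE
  set d := s - t with hd
  have hk2 : ((101/100 : ℂ) - I / 2) * d = E - k * (2 * Real.pi * I) := by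
    rw [hE, hd]
    linear_combination -hk
  have hre := congrArg Complex.re hk2
  have him := congrArg Complex.im hk2
  simp at hre him
  have hn : ‖d‖ ≤ |d.re| + |d.im| := Complex.norm_le_abs_re_add_abs_im d
  have hE1 : |E.re| ≤ ‖E‖ := Complex.abs_re_le_norm E
  have hE2 : |E.im| ≤ ‖E‖ := Complex.abs_im_le_norm E
  have hdim : |d.im| < Real.pi := by
    rw [hd, Complex.sub_im]
    have := abs_lt.mp hs
    have := abs_lt.mp ht
    rw [abs_lt]
    constructor <;> linarith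
  have hpi := Real.pi_pos
  have a1 := abs_le.mp hE1
  have a2 := abs_le.mp hE2
  have hx : |d.re| ≤ 3 / 5 * |d.im| := by
    rcases abs_cases d.re with ⟨h1, _⟩ | ⟨h1, _⟩ <;>
    rcases abs_cases d.im with ⟨h2, _⟩ | ⟨h2, _⟩ <;> linarith [a1.1, a1.2]
  have hk0 : k = 0 := by
    have hlt : |(k : ℝ)| * (2 * Real.pi) < 2 * Real.pi := by
      have : |(k : ℝ) * (2 * Real.pi)| < 2 * Real.pi := by
        have b1 := le_abs_self d.re
        have b2 := neg_abs_le d.re
        have b3 := le_abs_self d.im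
        have b4 := neg_abs_le d.im
        rw [abs_lt]
        constructor <;> linarith
      rwa [abs_mul, abs_of_pos (by linarith : (0:ℝ) < 2 * Real.pi)] at this
    have hlt2 : |(k : ℝ)| < 1 := by
      by_contra hc
      push Not at hc
      nlinarith
    have : |k| < 1 := by exact_mod_cast hlt2
    have := abs_lt.mp this
    omega
  subst hk0
  simp at him
  have hy : d.im = 0 := by
    have b1 := le_abs_self d.re
    have b2 := neg_abs_le d.re
    rcases abs_cases d.im with ⟨h2, _⟩ | ⟨h2, _⟩ <;> linarith [a2.1, a2.2]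
  have hx0 : d.re = 0 := by
    rw [hy] at hx
    simp at hx
    exact hx
  have : d = 0 := Complex.ext hx0 hy
  rw [hd] at this
  exact sub_eq_zero.mp this

lemma hasDerivAt_GG (s : ℂ) : HasDerivAt GG (-(gg s * exp s)) s := by
  unfold GG gg
  have h1 : HasDerivAt (fun s : ℂ => -(1/100 : ℂ) * s) (-(1/100 : ℂ)) s := by
    simpa using (hasDerivAt_id s).const_mul (-(1/100 : ℂ))
  have h2 : HasDerivAt (fun s : ℂ => -((1/100 : ℂ) - I / 2) * s) (-((1/100 : ℂ) - I / 2)) s := by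
    simpa using (hasDerivAt_id s).const_mul (-((1/100 : ℂ) - I / 2))
  have h3 := h1.cexp.sub h2.cexp
  refine HasDerivAt.congr_deriv h3 ?_
  have e1 : exp (-(1/100 : ℂ) * s) = exp (-(101/100 : ℂ) * s) * exp s := by
    rw [← Complex.exp_add]; congr 1; ring
  have e2 : exp (-((1/100 : ℂ) - I / 2) * s) = exp (-((101/100 : ℂ) - I / 2) * s) * exp s := by
    rw [← Complex.exp_add]; congr 1; ring
  rw [e1, e2]
  ring

lemma one_sub_re_pos {z : ℂ} (hz : z ∈ Metric.ball (0:ℂ) 1) : 0 < (1 - z).re := by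
  rw [mem_ball_zero_iff] at hz
  have := Complex.re_le_norm z
  rw [Complex.sub_re, Complex.one_re]
  linarith

lemma one_sub_slit {z : ℂ} (hz : z ∈ Metric.ball (0:ℂ) 1) : (1 - z) ∈ slitPlane :=
  Or.inl (one_sub_re_pos hz)

lemma log_im {z : ℂ} (hz : z ∈ Metric.ball (0:ℂ) 1) : |(log (1 - z)).im| < Real.pi / 2 := by
  rw [Complex.log_im]
  exact Complex.abs_arg_lt_pi_div_two_iff.mpr (Or.inl (one_sub_re_pos hz))

noncomputable def ff (z : ℂ) : ℂ := gg (log (1 - z))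
noncomputable def FF (z : ℂ) : ℂ := GG (log (1 - z))

lemma hasDerivAt_logsub {z : ℂ} (hz : z ∈ Metric.ball (0:ℂ) 1) :
    HasDerivAt (fun z : ℂ => log (1 - z)) (-1 / (1 - z)) z := by
  have h1 : HasDerivAt (fun z : ℂ => 1 - z) (-1) z := by
    simpa using (hasDerivAt_id z).const_sub 1
  exact h1.clog (one_sub_slit hz)

lemma hasDerivAt_FF {z : ℂ} (hz : z ∈ Metric.ball (0:ℂ) 1) : HasDerivAt FF (ff z) z := by
  have h := (hasDerivAt_GG (log (1 - z))).comp z (hasDerivAt_logsub hz)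
  have hne : (1 - z) ≠ 0 := slitPlane_ne_zero (one_sub_slit hz)
  refine HasDerivAt.congr_deriv h ?_
  unfold ff
  rw [Complex.exp_log hne]
  field_simp

lemma FF_zero : FF 0 = 0 := by
  simp [FF, GG]

lemma ff_analytic : AnalyticOnNhd ℂ ff (Metric.ball (0:ℂ) 1) := by
  apply DifferentiableOn.analyticOnNhd _ Metric.isOpen_ball
  intro z hz
  have h1 : Differentiable ℂ gg := by
    unfold gg
    fun_prop
  exact ((h1 _).comp z (hasDerivAt_logsub hz).differentiableAt).differentiableWithinAt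

lemma ff_inj : Set.InjOn ff (Metric.ball (0:ℂ) 1) := by
  intro z hz w hw h
  have h1 := gg_inj (log_im hz) (log_im hw) h
  have h2 := congrArg exp h1
  rw [Complex.exp_log (slitPlane_ne_zero (one_sub_slit hz)),
    Complex.exp_log (slitPlane_ne_zero (one_sub_slit hw))] at h2
  linear_combination -h2

lemma unbounded (C : ℝ) : ∃ z ∈ Metric.ball (0:ℂ) 1,
    C < (1 - ‖z‖ ^ 2) * ‖ff z‖ / (1 + ‖FF z‖ ^ 2) := by
  obtain ⟨n, hn⟩ := exists_nat_gt (200 * C)
  set t : ℝ := 4 * Real.pi * n with ht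
  have hpi := Real.pi_gt_three
  have hn0 : (0:ℝ) ≤ n := Nat.cast_nonneg n
  have ht0 : (n:ℝ) ≤ t := by rw [ht]; nlinarith
  have he0 : 0 < Real.exp (-t) := Real.exp_pos _
  have he1 : Real.exp (-t) ≤ 1 := Real.exp_le_one_iff.mpr (by linarith)
  have hnorm : ‖((1 - Real.exp (-t) : ℝ) : ℂ)‖ = 1 - Real.exp (-t) := by
    rw [Complex.norm_real, Real.norm_eq_abs, abs_of_nonneg (by linarith)]
  have hlog : log (1 - ((1 - Real.exp (-t) : ℝ) : ℂ)) = ((-t : ℝ) : ℂ) := by
    have : (1 - ((1 - Real.exp (-t) : ℝ) : ℂ)) = ((Real.exp (-t) : ℝ) : ℂ) := by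
      push_cast; ring
    rw [this, ← Complex.ofReal_log he0.le, Real.log_exp]
  have hrot : exp (I / 2 * ((-t : ℝ) : ℂ)) = 1 := by
    have : I / 2 * ((-t : ℝ) : ℂ) = ((-n : ℤ) : ℂ) * (2 * Real.pi * I) := by
      rw [ht]; push_cast; ring
    rw [this]
    exact Complex.exp_int_mul_two_pi_mul_I _
  refine ⟨((1 - Real.exp (-t) : ℝ) : ℂ), ?_, ?_⟩
  · rw [mem_ball_zero_iff, hnorm]; linarith
  · have hF : FF ((1 - Real.exp (-t) : ℝ) : ℂ) = 0 := by
      unfold FF GG
      rw [hlog]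
      have : -((1/100 : ℂ) - I / 2) * ((-t : ℝ) : ℂ)
          = -(1/100 : ℂ) * ((-t : ℝ) : ℂ) + I / 2 * ((-t : ℝ) : ℂ) := by ring
      rw [this, Complex.exp_add, hrot]
      ring
    have hf : ff ((1 - Real.exp (-t) : ℝ) : ℂ) = I / 2 * ((Real.exp (101 / 100 * t) : ℝ) : ℂ) := by
      unfold ff gg
      rw [hlog]
      have : -((101/100 : ℂ) - I / 2) * ((-t : ℝ) : ℂ)
          = -(101/100 : ℂ) * ((-t : ℝ) : ℂ) + I / 2 * ((-t : ℝ) : ℂ) := by ring
      rw [this, Complex.exp_add, hrot]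
      have h2 : -(101/100 : ℂ) * ((-t : ℝ) : ℂ) = ((101 / 100 * t : ℝ) : ℂ) := by
        push_cast; ring
      rw [h2, ← Complex.ofReal_exp]
      ring
    rw [hF, hf, hnorm, norm_mul, Complex.norm_real, Real.norm_eq_abs,
      abs_of_pos (Real.exp_pos _)]
    have h3 : ‖I / 2‖ = 1 / 2 := by simp
    rw [h3]
    have h4 : Real.exp (101 / 100 * t) * Real.exp (-t) = Real.exp (1 / 100 * t) := by
      rw [← Real.exp_add]; congr 1; ring
    have h5 : 1 / 100 * t + 1 ≤ Real.exp (1 / 100 * t) := Real.add_one_le_exp _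
    have h6 : Real.exp (-t) ≤ 1 - (1 - Real.exp (-t)) ^ 2 := by nlinarith
    have h7 : 0 < Real.exp (101 / 100 * t) := Real.exp_pos _
    have h8 : Real.exp (-t) * (1 / 2 * Real.exp (101 / 100 * t))
        ≤ (1 - (1 - Real.exp (-t)) ^ 2) * (1 / 2 * Real.exp (101 / 100 * t)) :=
      mul_le_mul_of_nonneg_right h6 (by positivity)
    simp only [norm_zero]
    norm_num
    nlinarith

theorem not_normal :
    ¬ (∀ f F : ℂ → ℂ,
      AnalyticOnNhd ℂ f (Metric.ball (0:ℂ) 1) →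
      Set.InjOn f (Metric.ball (0:ℂ) 1) →
      F 0 = 0 →
      (∀ z ∈ Metric.ball (0:ℂ) 1, HasDerivAt F (f z) z) →
      ∃ C : ℝ, ∀ z ∈ Metric.ball (0:ℂ) 1,
        (1 - ‖z‖ ^ 2) * ‖f z‖ / (1 + ‖F z‖ ^ 2) ≤ C) := by
  intro h
  obtain ⟨C, hC⟩ := h ff FF ff_analytic ff_inj FF_zero (fun z hz => hasDerivAt_FF hz)
  obtain ⟨z, hz, hlt⟩ := unbounded C
  exact absurd (hC z hz) (not_le.mpr hlt)

end Pool.Agent.MP_32357e_an
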